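import Pool.Agent.Helper21.TR.Bad4
import Pool.Agent.Helper21.TR.SharpBad

/-!
Symplectic Mumford-Tate pairs of weights zero and one with the data of a place of bad reduction:
the complete list of the triples (rank of the monodromy, greatest common divisor of the
multiplicities of Frobenius, dimension) which force the group to be as large as possible.
-/

open Module MTPairs

namespace Pool.Agent.Results.MP_b8862a_ag.BadPlacePairs

/-- For a set `R` of triples of natural numbers the following are equivalent: every symplectic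
Mumford-Tate pair of weights `0` and `1` whose standard representation is an orthogonal sum of
pairwise non isomorphic irreducible summands `W j`, on each of which some elements `u`, `g` of
the group have the data `r`, `d` of a bad place with `(r, d, dim W j)` in `R`, is the full
group of similitudes preserving the summands; no element `(r, d, D)` of `R` is exceptional. -/
theorem result {K : Type*} [Field K] [IsAlgClosed K] [CharZero K] (R : Set (ℕ × ℕ × ℕ)) :
    (∀ (m ι : Type) [Fintype m] [DecidableEq m] [Fintype ι] [DecidableEq ι]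
      (J : Matrix m m K) (G : Subgroup (Matrix.GeneralLinearGroup m K))
      (W : ι → Submodule K (m → K)), IsMTPair J G → IsSplit J G W →
      (∀ j, ∃ u ∈ G, ∃ g ∈ G, ∃ r d : ℕ, IsBad J u g (W j) r d ∧
        (r, d, finrank K (W j)) ∈ R) → IsFull J G W) ↔
    ∀ r d D : ℕ, (r, d, D) ∈ R → ¬ (0 < r ∧ 2 * r ≤ D ∧ 2 ∣ d ∧ d ∣ r ∧ 2 * d ∣ D ∧
      (2 * r = D → d = r) ∧ (4 ≤ d ∨ 4 ∣ r ∨ (r = 6 ∧ D = 20))) := by
  constructor
  · rintro h r d D hr ⟨h0, h1, h2, h3, h4, h5, h6⟩
    obtain ⟨m, i1, i2, J, G, hm, g1, g2, ⟨u, hu, g, hg, hb⟩, g4⟩ :=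
      TR.exists_counter_bad K h0 h1 h2 h3 h4 h5 h6
    apply g4
    apply h _ _ _ _ _ g1 g2
    intro j
    refine ⟨u, hu, g, hg, r, d, hb, ?_⟩
    rw [finrank_top, Module.finrank_fintype_fun_eq_card, hm]
    exact hr
  · intro hR m ι _ _ _ _ J G W hG hW hq
    apply TR.isFull_of_bad hG hW
    intro j
    obtain ⟨u, hu, g, hg, r, d, hb, hr⟩ := hq j
    exact ⟨u, hu, g, hg, r, d, hb, hR r d _ hr⟩

end Pool.Agent.Results.MP_b8862a_ag.BadPlacePairs
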