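import Mathlib
import Pool.Agent.Helper21.TB.AllC

/-!
# Voisin's conjecture for surfaces with a genus one fibration

Let `k` be an algebraically closed field of characteristic zero, `B` a smooth projective curve of
genus `g` over `k` with function field `F`, and `C` a curve of genus one over `F` whose
Jacobian is the elliptic curve `y ^ 2 = x ^ 3 + a x + b`. Let `E` be the fundamental divisor of the
Jacobian fibration: `div a + 4 E ≥ 0` and `div b + 6 E ≥ 0`, and `E` is minimal. Then
`deg E = χ (O_S)` for every smooth projective surface `S` with a relatively minimal fibration over
`B` (possibly with multiple fibres) with generic fibre `C`. We assume that `deg E > 0`; then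
`p_g (S) = deg E + g - 1`, `q (S) = g`. There is no other condition: `B` and `g` are arbitrary, and
the `j`-invariant may be constant.

Let `L` be a finite Galois extension of `F`, so large that `C` has a point over `L` and that `L`
contains the roots of `x ^ 3 + a x + b` and square roots of their differences. Then the function
field of `C` over `L` is `Ω = L (x, y)`, and the Galois group `G` acts on `Ω` by
`σ (x, y) = (x, y) + e_σ` with points `e_σ` of the Jacobian over `L`. Let `ξ_1, …, ξ_M` be functions
on `C`, i.e. elements of `Ω` fixed by `G`, not all zero, and let `S` be the closure of the
point `(ξ_1 : … : ξ_M)`, i.e. the set of zeros in the projective space of the forms over `k`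
vanishing at `ξ`. For suitable `ξ` this is any given projective model of the surface, in particular
the smooth surface itself. Let `π : S → B` be a morphism which extends `C → Spec F`. We prove that
for `n ≥ deg E + g` (that is, `n > p_g (S)`) and zero-cycles `a_1, …, a_n` on `S` whose direct
images `π_* a_i` are rationally equivalent to zero on `B` (these are the Albanese-trivial
cycles, as the Albanese variety of `S` is the Jacobian of `B`) the alternating sum of the exterior
products `a_{σ(1)} × ⋯ × a_{σ(n)}` is torsion in the Chow group of zero-cycles of `S ^ n`.

Outline of the proof.
* Jacobian fibration (Helper51, Helper15, Helper83). Let `Ψ` be a function on the `n`-tuples of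
  points on good fibres of the Jacobian fibration which is odd in each variable, alternating and
  harmonic along all curves, and vanishes if one of the points is on the fibre over `e_1`, a fixed
  place of bad reduction (a pole of `j` if `j` is not constant). By the Riemann-Roch theorem the
  divisor of the base points moves in a pencil through `e_1`; the contact argument of the case of
  the projective line shows that `Ψ = 0`. If `j` is constant then the Jacobian fibration is a twist
  of a constant elliptic curve by a root of a function, and a similar argument works.
* Transfer. Let `φ` be a function on the points of `S` which vanishes on the cycles rationally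
  equivalent to zero. For a place `v` of `L` over a point `P` of `B` with smooth fibre `E_0` of the
  Jacobian fibration the reduction of `ξ` at `v` defines a map from almost all points of `E_0` to
  `S`, and `φ (u + w) - φ (w)` is a homomorphism `ψ (u)` on `E_0` which does not depend on `w`
  (lines through a fixed point of the cubic) nor on `v` (the Galois group acts by translations).
  Over `e_1` the reduction over `L` is a nodal cubic, on which `φ` is constant, or (additive,
  potentially good reduction) a smooth cubic on which an element of the inertia group acts by an
  automorphism which is not a translation, and again `ψ = 0`. Let `p` be a point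
  of the Jacobian over a function field `K`; after an extension of `K` it is the difference of two
  points of `C`, whose images in `S` compute `ψ (p)` at any finite number of places. So alternating
  functions on `S ^ n` give functions `Ψ` as above, and vanish on products of cycles `ψ (y_i)`.
* A function `φ` with `ψ = 0` comes from the base: `φ = κ ∘ π`, where `κ` vanishes on principal
  divisors. It is constant on the fibres over almost all points of `B`; one compares it with its
  average over a multisection, along a curve through an arbitrary point of `S` (curve selection).
-/

namespace Pool.Agent.Results.MP_83b46e_ag.GenusOneFibrations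

open VC Pool.Agent.Helper21.TO Pool.Agent.Helper21.TB

universe u

theorem result (k : Type u) [Field k] [IsAlgClosed k] [CharZero k]
    (F L Ω : Type u) [Field F] [Algebra k F] [Field L] [Algebra k L] [Algebra F L]
    [IsScalarTower k F L] [Field Ω] [Algebra k Ω] [Algebra L Ω] [IsScalarTower k L Ω]
    (T : Fibration k F L Ω) (g : ℕ) (hg : IsGenus k F g) (E : Place k F →₀ ℤ)
    (h4 : ∀ P : Place k F, T.a ≠ 0 → 0 ≤ ord P.ring T.a + 4 * E P)
    (h6 : ∀ P : Place k F, T.b ≠ 0 → 0 ≤ ord P.ring T.b + 6 * E P)
    (hmin : ∀ P : Place k F, (T.a ≠ 0 ∧ ord P.ring T.a + 4 * E P < 4) ∨
      (T.b ≠ 0 ∧ ord P.ring T.b + 6 * E P < 6))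
    (hE : 0 < E.sum fun _ m => m)
    (M : ℕ) (ξ : Fin M → Ω) (hξ : ξ ≠ 0) (hfix : ∀ σ ∈ T.G, ∀ i, σ (ξ i) = ξ i)
    (π : (proj k (vanB k ξ)).Pt → Place k F) (hπ : IsMorph T.j ξ π) (n : ℕ)
    (hn : (E.sum fun _ m => m) + g ≤ n) (a : Fin n → (proj k (vanB k ξ)).Cycles)
    (ha : ∀ i, (a i).mapDomain π ∈ (curve T.hF).Rat) :
    ∃ m : ℕ, 0 < m ∧ m • ∑ σ : Equiv.Perm (Fin n), ((Equiv.Perm.sign σ : ℤˣ) : ℤ) •
      extProd (fun i => a (σ i)) ∈ ((proj k (vanB k ξ)).pow n).Rat :=
  voisin_all' T hg E h4 h6 (Or.inr ⟨hE, hmin⟩) ξ hξ hfix π hπ hn a ha

end Pool.Agent.Results.MP_83b46e_ag.GenusOneFibrations
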