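import Mathlib
import Pool.Agent.Helper21.TB.Final

/-!
# Voisin's conjecture for all K3 surfaces and almost all `n`

Let `k` be an algebraically closed field of characteristic zero, `B` a smooth projective curve of
genus `g` over `k` with function field `F`, and `C` a curve of genus one over `F` with
non-constant `j`-invariant, whose Jacobian is `y ^ 2 = x ^ 3 + a x + b`. Let `E` be a divisor on
`B` with `div a + 4 E ≥ 0`, `div b + 6 E ≥ 0`. As in `GenusOneFibrations` the curve `C` is described
by the action of the Galois group `G` of a splitting field `L` on `Ω = L (x, y)`. Let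
`ξ_1, …, ξ_M` be functions on `C`, not all zero, and `S` the closure of the point
`(ξ_1 : … : ξ_M)` of projective space over `k`. So the fibres `C_t`, `t ∈ B`, are mapped to a family
of curves on `S`, which cover `S`. We assume that there is a rational curve on `S` which meets the
general member of the family: there is a curve `f : P¹ → P^(M-1)` (given by polynomials
`f_i ∈ k[X]`, it may be constant) and a point `f (z)` of it with coordinates in an extension `K` of
`F` which lies on the image of the generic fibre, i.e. satisfies all homogeneous equations over `F`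
of the point `ξ`. We prove: for `n ≥ deg E + g` and zero-cycles `a_1, …, a_n` of DEGREE ZERO on
`S` the alternating sum of the exterior products `a_{σ(1)} × ⋯ × a_{σ(n)}` is torsion in the Chow
group of zero-cycles of `S ^ n`.

Every `K3` surface `S` has a family of this kind: it contains a curve of geometric genus one which
moves in a non-isotrivial family (Chen, Gounelas), and an ample divisor which is a sum of rational
curves (Bogomolov, Mumford). So for every `K3` surface the alternating relations hold for all but
finitely many `n`.

Outline of the proof. As for `GenusOneFibrations` (Jacobian fibration, transfer) the alternating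
functions on `S ^ n` vanish on the products of the cycles `ψ (y_i)`. A function `φ` on `S` which
vanishes on the cycles rationally equivalent to zero and with `ψ = 0` comes from the base: there
is a function `κ` on `B` which vanishes on principal divisors such that `φ (s) = κ (P)` for all
points `(P, s)` of the closure of the graph in `B × S`. As `φ` is constant on the rational curve,
which meets the general member, `κ` is constant, hence `φ` is constant.
-/

namespace Pool.Agent.Results.MP_83b46e_ag.K3Surfaces

open VC Pool.Agent.Helper21.TO Pool.Agent.Helper21.TB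

universe u

theorem result (k : Type u) [Field k] [IsAlgClosed k] [CharZero k]
    (F L Ω : Type u) [Field F] [Algebra k F] [Field L] [Algebra k L] [Algebra F L]
    [IsScalarTower k F L] [Field Ω] [Algebra k Ω] [Algebra L Ω] [IsScalarTower k L Ω]
    (T : Fibration k F L Ω) (g : ℕ) (hg : IsGenus k F g)
    (hj : ∀ c : k, T.a ^ 3 ≠ algebraMap k F c * (4 * T.a ^ 3 + 27 * T.b ^ 2))
    (E : Place k F →₀ ℤ) (h4 : ∀ P : Place k F, 0 ≤ ord P.ring T.a + 4 * E P)
    (h6 : ∀ P : Place k F, 0 ≤ ord P.ring T.b + 6 * E P)
    (M : ℕ) (ξ : Fin M → Ω) (hξ : ξ ≠ 0) (hfix : ∀ σ ∈ T.G, ∀ i, σ (ξ i) = ξ i)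
    (K : Type u) [Field K] [Algebra k K] (hK : IsFunctionField k K) (ι : F →ₐ[k] K) (z : K)
    (f : Fin M → Polynomial k) (hf : (fun i => Polynomial.aeval z (f i)) ≠ 0)
    (hR : ∀ (d : ℕ) (G : MvPolynomial (Fin M) F), G.IsHomogeneous d →
      G.eval₂ (T.j : F →+* Ω) ξ = 0 →
      G.eval₂ (ι : F →+* K) (fun i => Polynomial.aeval z (f i)) = 0)
    (n : ℕ) (hn : (E.sum fun _ m => m) + g ≤ n) (a : Fin n → (proj k (vanB k ξ)).Cycles)
    (ha : ∀ i, (a i).sum (fun _ c => c) = 0) :
    ∃ m : ℕ, 0 < m ∧ m • ∑ σ : Equiv.Perm (Fin n), ((Equiv.Perm.sign σ : ℤˣ) : ℤ) •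
      extProd (fun i => a (σ i)) ∈ ((proj k (vanB k ξ)).pow n).Rat :=
  kimura_fib T hg E hj h4 h6 ξ hξ hfix K hK ι z f hf hR hn a ha

end Pool.Agent.Results.MP_83b46e_ag.K3Surfaces
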