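import Pool.Agent.Helper21.MT.Main

/-!
Symplectic Mumford-Tate pairs of weights zero and one containing quadratic unipotent elements:
the ranks which force the group to be as large as possible are exactly the odd numbers and two.
-/

open Module MTPairs

namespace Pool.Agent.Helper21.Reserve.OddToricRank

/-- For a set `R` of natural numbers the following are equivalent: every symplectic
Mumford-Tate pair of weights `0` and `1` whose standard representation is an orthogonal sum of
pairwise non isomorphic irreducible summands, on each of which some element of the group is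
unipotent of the form `1 + N` with `N² = 0` and rank of `N` in `R`, is the full group of
similitudes preserving the summands; every element of `R` is odd or equal to `2`. -/
theorem result {K : Type*} [Field K] [IsAlgClosed K] [CharZero K] (R : Set ℕ) :
    (∀ (m ι : Type) [Fintype m] [DecidableEq m] [Fintype ι] [DecidableEq ι]
      (J : Matrix m m K) (G : Subgroup (Matrix.GeneralLinearGroup m K))
      (W : ι → Submodule K (m → K)), IsMTPair J G → IsSplit J G W →
      (∀ j, ∃ u ∈ G, ∃ r ∈ R, IsQuadraticOn u (W j) r) → IsFull J G W) ↔
    ∀ r ∈ R, Odd r ∨ r = 2 := by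
  constructor
  · intro h r hr
    by_contra hcon
    rw [not_or, Nat.not_odd_iff_even] at hcon
    obtain ⟨⟨b, hb⟩, h2⟩ := hcon
    rcases Nat.eq_zero_or_pos r with h0 | h0
    · obtain ⟨G, h1, h2, -, h4⟩ := exists_counterexample K (b := 2) le_rfl
      apply h4
      apply h _ _ _ _ _ h1 h2
      intro j
      refine ⟨1, G.one_mem, r, hr, ?_, ?_⟩
      · intro v _
        simp
      · rw [h0]
        simp
    · obtain ⟨G, h1, h2, ⟨u, hu, hq⟩, h4⟩ := exists_counterexample K (b := b) (by omega)
      apply h4
      apply h _ _ _ _ _ h1 h2
      intro j
      exact ⟨u, hu, r, hr, by rw [hb, ← two_mul]; exact hq⟩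
  · intro hR m ι _ _ _ _ J G W hG hW hq
    apply isFull_of_quadratic hG hW
    intro j
    obtain ⟨u, hu, r, hr, hur⟩ := hq j
    exact ⟨u, hu, r, hur, hR r hr⟩

end Pool.Agent.Helper21.Reserve.OddToricRank
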