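import Mathlib
import Pool.Agent.Helper21.V2.FinE

/-!
Vojta's inequality for all quadratic points of the projective line, with the discriminant of the
order attached to the point in place of the discriminant of the field.

`k` is a number field, `S` a finite set of places containing the infinite ones, and `D` a reduced
divisor of degree `q` of the projective line, defined over `k`: `D = {g = 0}` (if `q = deg g`) or
`D = {g = 0} + ∞` (if `q = deg g + 1`) with a squarefree polynomial `g` over `k`. Points are given by
their affine coordinate `x`, an element of the algebraic closure of `k`.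
-/

namespace Pool.Agent.Results.MP_71c16a_nt.OrderDiscriminant

open NumberField Polynomial IntermediateField Pool.Agent.Helper64.Vojta

universe u

section

variable (k : Type u) [Field k] [NumberField k] {L : Type u} [Field L] [NumberField L] [Algebra k L]

/-- Logarithmic height, relative to `k`, of the point of the projective line with affine
coordinate `y`; `Height.logHeight` is Mathlib's height relative to `L`. -/
noncomputable def hgt (y : L) : ℝ := Height.logHeight ![y, 1] / Module.finrank k L

/-- Logarithmic discriminant `d_k(L)`. -/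
noncomputable def dk (k L : Type u) [Field k] [NumberField k] [Field L] [NumberField L]
    [Algebra k L] : ℝ :=
  Real.log |(discr L : ℝ)| / Module.finrank k L - Real.log |(discr k : ℝ)|

variable {k}

/-- The Weil function, relative to `k`, at the place `ν` of `k` of the divisor `D = {g = 0}`
(if `q = deg g`) or `D = {g = 0} + ∞` (if `q = deg g + 1`) of the projective line. -/
noncomputable def lamD (g : k[X]) (q : ℕ) (ν : Pl k) (y : L) : ℝ :=
  (∑ w ∈ above L ν, (q * Real.log (sn w ![y, 1]) - Real.log (nv w (aeval y g)))) / Module.finrank k L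

/-- Left side of Vojta's inequality: `h_K(y) + ∑_{ν ∈ S} λ_D(y,ν)`, with `K = - 2 · point`. -/
noncomputable def lhs (g : k[X]) (q : ℕ) (S : Finset (Pl k)) (y : L) : ℝ :=
  -(2 * hgt k y) + ∑ ν ∈ S, lamD g q ν y

/-- The field generated by an algebraic number over a number field is a number field. -/
instance numberField_adjoin (x : AlgebraicClosure k) : NumberField k⟮x⟯ := by
  have : FiniteDimensional k k⟮x⟯ := adjoin.finiteDimensional (Algebra.IsIntegral.isIntegral x)
  have h0 : CharZero k⟮x⟯ := charZero_of_injective_algebraMap (algebraMap k k⟮x⟯).injective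
  have h1 : FiniteDimensional ℚ k⟮x⟯ := Module.Finite.trans k k⟮x⟯
  exact { to_charZero := h0, to_finiteDimensional := h1 }

/-- The coefficients of the binary quadratic form `X² + b X Y + c Y²` of a quadratic number `x`, whose
minimal polynomial over `k` is `X² + b X + c`. -/
noncomputable def form (x : AlgebraicClosure k) : Fin 3 → k :=
  ![1, (minpoly k x).coeff 1, (minpoly k x).coeff 0]

/-- For a finite place `v`: `ord_v(Δ) log N v`, where `Δ` is the discriminant of a multiple of the
form of `x` with `v`-integral coefficients, one of them a unit at `v` (`sn` is the maximum of the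
normalised absolute values of the coefficients). -/
noncomputable def ordDisc (v : FinitePlace k) (x : AlgebraicClosure k) : ℝ :=
  2 * Real.log (sn (.inr v) (form x)) -
    Real.log (nv (.inr v) (form x 1 ^ 2 - 4 * form x 0 * form x 2))

/-- `log N v` -/
noncomputable def lnorm (v : FinitePlace k) : ℝ := Real.log (Ideal.absNorm v.maximalIdeal.asIdeal)

/-- One half of the logarithm of the norm of the part outside `S` of the discriminant of the form
of `x`. -/
noncomputable def delta (S : Finset (Pl k)) (x : AlgebraicClosure k) : ℝ :=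
  (∑ᶠ (v : FinitePlace k) (_ : Sum.inr v ∉ S), ordDisc v x) / 2

/-- The order part: the sum over the finite places `v` outside `S` of `⌊ord_v(Δ)/2⌋ log N v`. -/
noncomputable def orderPart (S : Finset (Pl k)) (x : AlgebraicClosure k) : ℝ :=
  ∑ᶠ (v : FinitePlace k) (_ : Sum.inr v ∉ S), (⌊ordDisc v x / (2 * lnorm v)⌋ : ℝ) * lnorm v

end

theorem form_eq {k : Type u} [Field k] [NumberField k] (x : AlgebraicClosure k) :
    form x = Pool.Agent.V2.qf k (AdjoinSimple.gen k x) := by
  unfold form Pool.Agent.V2.qf
  rw [minpoly_gen]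

theorem aeval_gen_eq_zero {k : Type u} [Field k] {g : k[X]} {x : AlgebraicClosure k} :
    aeval (AdjoinSimple.gen k x) g = 0 ↔ aeval x g = 0 := by
  have h : aeval x g = algebraMap k⟮x⟯ (AlgebraicClosure k) (aeval (AdjoinSimple.gen k x) g) := by
    rw [← aeval_algebraMap_apply]
    rfl
  rw [h, map_eq_zero_iff (algebraMap k⟮x⟯ (AlgebraicClosure k))
    (algebraMap k⟮x⟯ (AlgebraicClosure k)).injective]

/-- For all points `x` outside `D` of degree two over `k`,
`h_K(x) + ∑_{ν ∈ S} λ_D(x,ν) ≤ ε h(x) + δ_S(x) + C`, where `δ_S(x)` is one half of the logarithm of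
the norm of the part outside `S` of the discriminant of the primitive form of `x`, and hence
`h_K(x) + ∑_{ν ∈ S} λ_D(x,ν) ≤ ε h(x) + d_k(x) + C + ∑_{v ∉ S} ⌊ord_v(Δ)/2⌋ log N v`. -/
theorem result (k : Type u) [Field k] [NumberField k] (g : k[X]) (hg : Squarefree g) (q : ℕ)
    (hq1 : g.natDegree ≤ q) (hq2 : q ≤ g.natDegree + 1)
    (S : Finset (Pl k)) (hS : ∀ v : InfinitePlace k, Sum.inl v ∈ S) (ε : ℝ) (hε : 0 < ε) :
    ∃ C : ℝ, ∀ x : AlgebraicClosure k, Module.finrank k k⟮x⟯ = 2 → aeval x g ≠ 0 →
      lhs g q S (AdjoinSimple.gen k x) ≤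
        ε * hgt k (AdjoinSimple.gen k x) + delta S x + C ∧
      lhs g q S (AdjoinSimple.gen k x) ≤
        ε * hgt k (AdjoinSimple.gen k x) + dk k k⟮x⟯ + C + orderPart S x := by
  obtain ⟨C, hC⟩ := Pool.Agent.V2.fin_main g hg hq1 hq2 S hS ε hε
  refine ⟨C, fun x hx hgx => ?_⟩
  have hint : IsIntegral k x := Algebra.IsIntegral.isIntegral x
  have hy : (minpoly k (AdjoinSimple.gen k x)).natDegree = 2 := by
    rw [minpoly_gen, ← hx, adjoin.finrank hint]
  have hgy : aeval (AdjoinSimple.gen k x) g ≠ 0 := by
    rw [Ne, aeval_gen_eq_zero]; exact hgx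
  have h1 := hC k⟮x⟯ (AdjoinSimple.gen k x) hx hy hgy
  have h2 := Pool.Agent.V2.delta_le (AdjoinSimple.gen k x) hx hy S
  have e1 : ∀ v : FinitePlace k, Pool.Agent.V2.ldisc (.inr v)
      (Pool.Agent.V2.qf k (AdjoinSimple.gen k x)) = ordDisc v x := by
    intro v
    rw [← form_eq]
    rfl
  have e2 : Pool.Agent.V2.idx S (Pool.Agent.V2.qf k (AdjoinSimple.gen k x)) = orderPart S x := by
    unfold Pool.Agent.V2.idx orderPart lnorm
    simp_rw [e1]
  simp_rw [e1] at h1 h2
  rw [e2] at h2
  have e3 : delta S x = (∑ᶠ (v : FinitePlace k) (_ : Sum.inr v ∉ S), ordDisc v x) / 2 := rfl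
  rw [← e3] at h1 h2
  constructor
  · unfold lhs lamD hgt
    linarith
  · unfold lhs lamD hgt dk
    linarith

end Pool.Agent.Results.MP_71c16a_nt.OrderDiscriminant
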