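import Pool.Agent.Helper21.TR.Weak
import Pool.Agent.Helper21.TR.SharpAll

/-!
Symplectic Mumford-Tate pairs of weights zero and one containing quadratic unipotent elements:
the complete list of the pairs (rank, dimension) which force the group to be as large as
possible.
-/

open Module MTPairs

namespace Pool.Agent.Helper21.Reserve.ToricRankPairs

/-- For a set `R` of pairs of natural numbers the following are equivalent: every symplectic
Mumford-Tate pair of weights `0` and `1` whose standard representation is an orthogonal sum of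
nonzero pairwise non isomorphic irreducible summands `W j`, on each of which some element of the
group is unipotent of the form `1 + N` with `N² = 0` and `(rank N, dim W j)` in `R`, is the full
group of similitudes preserving the summands; no element `(r, D)` of `R` is exceptional. -/
theorem result {K : Type*} [Field K] [IsAlgClosed K] [CharZero K] (R : Set (ℕ × ℕ)) :
    (∀ (m ι : Type) [Fintype m] [DecidableEq m] [Fintype ι] [DecidableEq ι]
      (J : Matrix m m K) (G : Subgroup (Matrix.GeneralLinearGroup m K))
      (W : ι → Submodule K (m → K)), IsMTPair J G → IsSplit J G W →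
      (∀ j, W j ≠ ⊥ ∧ ∃ u ∈ G, ∃ r : ℕ, IsQuadraticOn u (W j) r ∧
        (r, finrank K (W j)) ∈ R) → IsFull J G W) ↔
    ∀ r D : ℕ, (r, D) ∈ R → ¬ (4 ∣ D ∧ 8 ≤ D ∧ 2 * r ≤ D ∧ 2 ∣ r ∧
      (4 ∣ r ∨ ¬ Nat.Coprime (r / 2) (D / 4) ∨ (r = 6 ∧ D = 20))) := by
  constructor
  · intro h r D hr hexc
    obtain ⟨m, i1, i2, J, G, hm, h1, h2, ⟨u, hu, hq⟩, h4⟩ := TR.exists_counter K hexc
    apply h4
    apply h _ _ _ _ _ h1 h2
    intro j
    refine ⟨?_, u, hu, r, hq, ?_⟩
    · intro h0
      have h5 := congrArg (fun U : Submodule K (m → K) => finrank K U) h0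
      simp only [finrank_top, finrank_bot, Module.finrank_fintype_fun_eq_card, hm] at h5
      have := hexc.2.1
      omega
    · rw [finrank_top, Module.finrank_fintype_fun_eq_card, hm]
      exact hr
  · intro hR m ι _ _ _ _ J G W hG hW hq
    apply TR.isFull_of_ranks hG hW
    intro j
    obtain ⟨h0, u, hu, r, hur, hr⟩ := hq j
    exact ⟨h0, u, hu, r, hur, hR r _ hr⟩

end Pool.Agent.Helper21.Reserve.ToricRankPairs
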